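import Pool.Agent.Lib_helper69.QB.Defs
import Pool.Agent.Lib_helper92.RC.Trf
import Pool.Agent.Lib_helper92.RC.Dec

/-!
# MP_859019, QS, block CORE: from the normal form of a two-dimensional pair to all strict pairs
-/

set_option autoImplicit false

open scoped BigOperators ComplexOrder Kronecker MatrixOrder Topology Real
open MeasureTheory Set Matrix Filter

namespace Pool.Agent.QB

open Pool.Agent.RC Pool.Agent.LDK

variable {ι κ : Type} [Fintype ι] [DecidableEq ι] [Fintype κ] [DecidableEq κ]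

/-- unitary invariance of `trF` -/
lemma trF_unit_conj (f : ℝ → ℝ) {U M : Matrix ι ι ℂ} (hU : Uᴴ * U = 1) (hM : M.IsHermitian) :
    trF f (Uᴴ * M * U) = trF f M := by
  have hU' : U * Uᴴ = 1 := mul_eq_one_comm.1 hU
  have hH : (Uᴴ * M * U).IsHermitian := Matrix.isHermitian_conjTranspose_mul_mul U hM
  rw [TRF.trF_eq_roots f hH, TRF.trF_eq_roots f hM]
  have : (Uᴴ * M * U).charpoly = M.charpoly := by
    rw [Matrix.mul_assoc, Matrix.charpoly_mul_comm, Matrix.mul_assoc, hU', Matrix.mul_one]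
  rw [this]

lemma G_unit_conj (p : ℝ) {U A D : Matrix ι ι ℂ} (hU : Uᴴ * U = 1) (hA : A.IsHermitian)
    (hD : D.IsHermitian) : G p (Uᴴ * A * U) (Uᴴ * D * U) = G p A D := by
  have e1 : Uᴴ * A * U + Uᴴ * D * U = Uᴴ * (A + D) * U := by noncomm_ring
  have e2 : Uᴴ * A * U - Uᴴ * D * U = Uᴴ * (A - D) * U := by noncomm_ring
  unfold G
  rw [e1, e2, trF_unit_conj _ hU (hA.add hD), trF_unit_conj _ hU (hA.sub hD),
    trF_unit_conj _ hU hA]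

/-- exchange of the two tensor factors -/
lemma G_swap' (p : ℝ) (A₁ D₁ : Matrix ι ι ℂ) (A₂ D₂ : Matrix κ κ ℂ) :
    G p (A₂ ⊗ₖ A₁) (D₂ ⊗ₖ D₁) = G p (A₁ ⊗ₖ A₂) (D₁ ⊗ₖ D₂) := by
  have e : ∀ (X : Matrix ι ι ℂ) (Y : Matrix κ κ ℂ), Matrix.reindex (Equiv.prodComm ι κ)
      (Equiv.prodComm ι κ) (X ⊗ₖ Y) = Y ⊗ₖ X := by
    intro X Y
    ext i j
    simp [Matrix.kroneckerMap_apply, mul_comm]
  have e1 : Matrix.reindex (Equiv.prodComm ι κ) (Equiv.prodComm ι κ)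
      (A₁ ⊗ₖ A₂ + D₁ ⊗ₖ D₂) = A₂ ⊗ₖ A₁ + D₂ ⊗ₖ D₁ := by
    rw [← e, ← e]; rfl
  have e2 : Matrix.reindex (Equiv.prodComm ι κ) (Equiv.prodComm ι κ)
      (A₁ ⊗ₖ A₂ - D₁ ⊗ₖ D₂) = A₂ ⊗ₖ A₁ - D₂ ⊗ₖ D₁ := by
    rw [← e, ← e]; rfl
  unfold G
  rw [← e1, ← e2, ← e A₁ A₂, trF_reindex, trF_reindex, trF_reindex]

/-- the matrix with rows `√α (1, 0)`, `√β (√γ, √(1 - γ))` -/
noncomputable def Ft (α β γ : ℝ) : Matrix (Fin 2) (Fin 2) ℂ :=
  !![((√α : ℝ) : ℂ), 0; ((√β * √γ : ℝ) : ℂ), ((√β * √(1 - γ) : ℝ) : ℂ)]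

lemma Ft_A (α β γ : ℝ) (hα : 0 ≤ α) (hβ : 0 ≤ β) (h0 : 0 ≤ γ) (h1 : γ ≤ 1) (u v : ℝ) :
    (Ft α β γ)ᴴ * Matrix.diagonal ![(u : ℂ), (v : ℂ)] * Ft α β γ =
      ((u * α : ℝ) : ℂ) • E1 + ((v * β : ℝ) : ℂ) • E2 γ := by
  have a1 : √α * √α = α := Real.mul_self_sqrt hα
  have a2 : √β * √β = β := Real.mul_self_sqrt hβ
  have a3 : √γ * √γ = γ := Real.mul_self_sqrt h0
  have a4 : √(1 - γ) * √(1 - γ) = 1 - γ := Real.mul_self_sqrt (by linarith)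
  have b1 : ((√α : ℝ) : ℂ) * ((√α : ℝ) : ℂ) = α := by rw [← Complex.ofReal_mul, a1]
  have b2 : ((√β : ℝ) : ℂ) * ((√β : ℝ) : ℂ) = β := by rw [← Complex.ofReal_mul, a2]
  have b3 : ((√γ : ℝ) : ℂ) * ((√γ : ℝ) : ℂ) = γ := by rw [← Complex.ofReal_mul, a3]
  have b4 : ((√(1 - γ) : ℝ) : ℂ) * ((√(1 - γ) : ℝ) : ℂ) = 1 - γ := by
    rw [← Complex.ofReal_mul, a4]; push_cast; ring
  ext i j
  fin_cases i <;> fin_cases j
  · simp [Ft, E1, E2, Matrix.mul_apply, Fin.sum_univ_two, Matrix.diagonal_apply]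
    linear_combination (u : ℂ) * b1 + (v : ℂ) * (((√γ : ℝ) : ℂ) * ((√γ : ℝ) : ℂ)) * b2 +
      (v : ℂ) * β * b3
  · simp [Ft, E1, E2, Matrix.mul_apply, Fin.sum_univ_two, Matrix.diagonal_apply]
    linear_combination (v : ℂ) * (((√γ : ℝ) : ℂ) * ((√(1 - γ) : ℝ) : ℂ)) * b2
  · simp [Ft, E1, E2, Matrix.mul_apply, Fin.sum_univ_two, Matrix.diagonal_apply]
    linear_combination (v : ℂ) * (((√γ : ℝ) : ℂ) * ((√(1 - γ) : ℝ) : ℂ)) * b2
  · simp [Ft, E1, E2, Matrix.mul_apply, Fin.sum_univ_two, Matrix.diagonal_apply]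
    linear_combination (v : ℂ) * (((√(1 - γ) : ℝ) : ℂ) * ((√(1 - γ) : ℝ) : ℂ)) * b2 +
      (v : ℂ) * β * b4

/-- the Gram matrix -/
lemma Ft_K (α β γ : ℝ) (hα : 0 ≤ α) (hβ : 0 ≤ β) (h0 : 0 ≤ γ) (h1 : γ ≤ 1) :
    Ft α β γ * (Ft α β γ)ᴴ =
      !![(α : ℂ), ((√α * (√β * √γ) : ℝ) : ℂ); ((√α * (√β * √γ) : ℝ) : ℂ), (β : ℂ)] := by
  have a1 : √α * √α = α := Real.mul_self_sqrt hα
  have a2 : √β * √β = β := Real.mul_self_sqrt hβ
  have a3 : √γ * √γ = γ := Real.mul_self_sqrt h0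
  have a4 : √(1 - γ) * √(1 - γ) = 1 - γ := Real.mul_self_sqrt (by linarith)
  have b1 : ((√α : ℝ) : ℂ) * ((√α : ℝ) : ℂ) = α := by rw [← Complex.ofReal_mul, a1]
  have b2 : ((√β : ℝ) : ℂ) * ((√β : ℝ) : ℂ) = β := by rw [← Complex.ofReal_mul, a2]
  have b3 : ((√γ : ℝ) : ℂ) * ((√γ : ℝ) : ℂ) = γ := by rw [← Complex.ofReal_mul, a3]
  have b4 : ((√(1 - γ) : ℝ) : ℂ) * ((√(1 - γ) : ℝ) : ℂ) = 1 - γ := by
    rw [← Complex.ofReal_mul, a4]; push_cast; ring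
  ext i j
  fin_cases i <;> fin_cases j
  · simp [Ft, Matrix.mul_apply, Fin.sum_univ_two]
    linear_combination b1
  · simp [Ft, Matrix.mul_apply, Fin.sum_univ_two]
  · simp [Ft, Matrix.mul_apply, Fin.sum_univ_two]
    ring
  · simp [Ft, Matrix.mul_apply, Fin.sum_univ_two]
    linear_combination b2 * (((√γ : ℝ) : ℂ) * ((√γ : ℝ) : ℂ)) +
      b2 * (((√(1 - γ) : ℝ) : ℂ) * ((√(1 - γ) : ℝ) : ℂ)) + (β : ℂ) * b3 + (β : ℂ) * b4

lemma Ft_det (α β γ : ℝ) (hα : 0 < α) (hβ : 0 < β) (h1 : γ < 1) : (Ft α β γ).det ≠ 0 := by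
  have e : (Ft α β γ).det = ((√α * (√β * √(1 - γ)) : ℝ) : ℂ) := by
    rw [Matrix.det_fin_two]
    simp [Ft]
  rw [e, Complex.ofReal_ne_zero]
  have := Real.sqrt_pos.2 hα
  have := Real.sqrt_pos.2 hβ
  have := Real.sqrt_pos.2 (show 0 < 1 - γ by linarith)
  positivity

lemma vec2 (η : Fin 2 → ℝ) : (Matrix.diagonal fun i => (η i : ℂ)) =
    Matrix.diagonal ![((η 0 : ℝ) : ℂ), ((η 1 : ℝ) : ℂ)] := by
  congr 1
  ext i
  fin_cases i <;> simp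

/-- normal form of a two-dimensional pair -/
theorem exists_normal {A D : Matrix (Fin 2) (Fin 2) ℂ} (hA : A.PosDef) (hD : D.IsHermitian) :
    ∃ (U V : Matrix (Fin 2) (Fin 2) ℂ) (α β γ v₁ v₂ : ℝ), Uᴴ * U = 1 ∧ 0 < α ∧ 0 < β ∧ 0 ≤ γ ∧
      γ < 1 ∧ A = Uᴴ * ((α : ℂ) • E1 + (β : ℂ) • E2 γ) * U ∧
      D = Uᴴ * (((v₁ * α : ℝ) : ℂ) • E1 + ((v₂ * β : ℝ) : ℂ) • E2 γ) * U ∧
      Vᴴ * A * V = 1 ∧ Vᴴ * D * V = Matrix.diagonal ![(v₁ : ℂ), (v₂ : ℂ)] := by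
  obtain ⟨V, W, η, hVW, hWV, hR, hη⟩ := DEC.exists_simul hA hD (le_refl (0 : ℝ))
  have hVW' : Wᴴ * Vᴴ = 1 := by
    rw [← Matrix.conjTranspose_mul, hVW, Matrix.conjTranspose_one]
  have hWV' : Vᴴ * Wᴴ = 1 := by
    rw [← Matrix.conjTranspose_mul, hWV, Matrix.conjTranspose_one]
  have hinv : (V * Vᴴ) * A = 1 := by
    rw [← hR]
    have h := DEC.res_mul hA (le_refl (0 : ℝ))
    have e : DEC.Bm A 0 = A := by simp [DEC.Bm]
    rwa [e] at h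
  have hAW : A = Wᴴ * W := by
    calc A = (Wᴴ * Vᴴ) * A := by rw [hVW', Matrix.one_mul]
      _ = (Wᴴ * (W * V) * Vᴴ) * A := by rw [hWV, Matrix.mul_one]
      _ = Wᴴ * W * ((V * Vᴴ) * A) := by noncomm_ring
      _ = Wᴴ * W := by rw [hinv, Matrix.mul_one]
  have hDW : D = Wᴴ * Matrix.diagonal ![((η 0 : ℝ) : ℂ), ((η 1 : ℝ) : ℂ)] * W := by
    rw [← vec2, ← hη]
    calc D = (Wᴴ * Vᴴ) * D * (V * W) := by rw [hVW', hVW]; simp
      _ = _ := by noncomm_ring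
  have hVA : Vᴴ * A * V = 1 := by
    rw [hAW]
    calc Vᴴ * (Wᴴ * W) * V = (Vᴴ * Wᴴ) * (W * V) := by noncomm_ring
      _ = 1 := by rw [hWV, hWV']; simp
  -- the Gram matrix of the rows of `W`
  set a := W 0 0 with ha
  set b := W 0 1 with hb
  set c := W 1 0 with hc
  set d := W 1 1 with hd
  set α : ℝ := Complex.normSq a + Complex.normSq b with hα'
  set β : ℝ := Complex.normSq c + Complex.normSq d with hβ'
  set w : ℂ := a * (starRingEnd ℂ) c + b * (starRingEnd ℂ) d with hw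
  have hdet : a * d - b * c ≠ 0 := by
    have h1 : W.det ≠ 0 := by
      intro h0
      have := congrArg Matrix.det hWV
      rw [Matrix.det_mul, h0, zero_mul, Matrix.det_one] at this
      exact zero_ne_one this
    rwa [Matrix.det_fin_two] at h1
  have hid : α * β - Complex.normSq w = Complex.normSq (a * d - b * c) := by
    simp only [hα', hβ', hw, Complex.normSq_apply, Complex.add_re, Complex.add_im, Complex.sub_re,
      Complex.sub_im, Complex.mul_re, Complex.mul_im, Complex.conj_re, Complex.conj_im]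
    ring
  have hpos : 0 < α * β - Complex.normSq w := by
    rw [hid]; exact Complex.normSq_pos.2 hdet
  have hw0 : 0 ≤ Complex.normSq w := Complex.normSq_nonneg _
  have hαβ : 0 < α * β := by linarith
  have hα0 : 0 ≤ α := add_nonneg (Complex.normSq_nonneg _) (Complex.normSq_nonneg _)
  have hβ0 : 0 ≤ β := add_nonneg (Complex.normSq_nonneg _) (Complex.normSq_nonneg _)
  have hα : 0 < α := lt_of_le_of_ne hα0 (by intro h; rw [← h] at hαβ; simp at hαβ)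
  have hβ : 0 < β := lt_of_le_of_ne hβ0 (by intro h; rw [← h] at hαβ; simp at hαβ)
  set γ : ℝ := Complex.normSq w / (α * β) with hγ'
  have hγ0 : 0 ≤ γ := div_nonneg hw0 hαβ.le
  have hγ1 : γ < 1 := by rw [hγ', div_lt_one hαβ]; linarith
  have hr : √α * (√β * √γ) = ‖w‖ := by
    rw [← Real.sqrt_mul hβ.le, ← Real.sqrt_mul hα.le]
    have : α * (β * γ) = Complex.normSq w := by
      rw [hγ']; field_simp
    rw [this, Complex.normSq_eq_norm_sq, Real.sqrt_sq (norm_nonneg _)]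
  -- the phase
  set φ : ℂ := Complex.exp ((Complex.arg w : ℂ) * Complex.I) with hφ
  have hφw : (‖w‖ : ℂ) * φ = w := Complex.norm_mul_exp_arg_mul_I w
  have hφ1 : φ * (starRingEnd ℂ) φ = 1 := by
    rw [Complex.mul_conj, Complex.normSq_eq_norm_sq, hφ, Complex.norm_exp_ofReal_mul_I]
    simp
  have hφw' : w * (starRingEnd ℂ) φ = (‖w‖ : ℂ) := by
    rw [← hφw, mul_assoc, hφ1, mul_one, norm_mul, hφ, Complex.norm_exp_ofReal_mul_I]
    simp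
  set F := Ft α β γ with hF
  have hFdet : IsUnit F.det := isUnit_iff_ne_zero.2 (Ft_det α β γ hα hβ hγ1)
  set Y : Matrix (Fin 2) (Fin 2) ℂ := Matrix.diagonal ![1, φ] * W with hY
  have hYY : Y * Yᴴ = F * Fᴴ := by
    rw [hF, Ft_K α β γ hα.le hβ.le hγ0 hγ1.le, hr]
    have hcw : (starRingEnd ℂ) w * φ = (‖w‖ : ℂ) := by
      have := congrArg (starRingEnd ℂ) hφw'
      simpa using this
    ext i j
    fin_cases i <;> fin_cases j
    · simp [hY, Matrix.mul_apply, Fin.sum_univ_two, Matrix.diagonal_apply, hα', ← ha, ← hb]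
      rw [Complex.mul_conj, Complex.mul_conj]
    · simp [hY, Matrix.mul_apply, Fin.sum_univ_two, Matrix.diagonal_apply, ← ha, ← hb, ← hc, ← hd]
      rw [← hφw', hw]; ring
    · simp [hY, Matrix.mul_apply, Fin.sum_univ_two, Matrix.diagonal_apply, ← ha, ← hb, ← hc, ← hd]
      rw [← hcw, hw]; simp; ring
    · simp [hY, Matrix.mul_apply, Fin.sum_univ_two, Matrix.diagonal_apply, hβ', ← hc, ← hd]
      linear_combination (c * (starRingEnd ℂ) c + d * (starRingEnd ℂ) d) * hφ1 +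
        Complex.mul_conj c + Complex.mul_conj d
  have hYD : ∀ u v : ℂ, Yᴴ * Matrix.diagonal ![u, v] * Y = Wᴴ * Matrix.diagonal ![u, v] * W := by
    intro u v
    have e : (Matrix.diagonal ![(1 : ℂ), φ])ᴴ * Matrix.diagonal ![u, v] *
        Matrix.diagonal ![1, φ] = Matrix.diagonal ![u, v] := by
      rw [Matrix.diagonal_conjTranspose, Matrix.diagonal_mul_diagonal, Matrix.diagonal_mul_diagonal]
      congr 1
      ext i
      fin_cases i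
      · simp
      · simp
        linear_combination v * hφ1
    calc Yᴴ * Matrix.diagonal ![u, v] * Y = Wᴴ * ((Matrix.diagonal ![(1 : ℂ), φ])ᴴ *
          Matrix.diagonal ![u, v] * Matrix.diagonal ![1, φ]) * W := by
          rw [hY, Matrix.conjTranspose_mul]; noncomm_ring
      _ = _ := by rw [e]
  set U := F⁻¹ * Y with hU
  have hFU : F * U = Y := by
    rw [hU, ← Matrix.mul_assoc, Matrix.mul_nonsing_inv _ hFdet, Matrix.one_mul]
  have hFi : Fᴴ * (F⁻¹)ᴴ = 1 := by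
    rw [← Matrix.conjTranspose_mul, Matrix.nonsing_inv_mul _ hFdet, Matrix.conjTranspose_one]
  have hUU : U * Uᴴ = 1 := by
    calc U * Uᴴ = F⁻¹ * (Y * Yᴴ) * (F⁻¹)ᴴ := by
          rw [hU, Matrix.conjTranspose_mul]; noncomm_ring
      _ = (F⁻¹ * F) * (Fᴴ * (F⁻¹)ᴴ) := by rw [hYY]; noncomm_ring
      _ = 1 := by rw [hFi, Matrix.nonsing_inv_mul _ hFdet, Matrix.one_mul]
  have key : ∀ u v : ℝ, Wᴴ * Matrix.diagonal ![(u : ℂ), (v : ℂ)] * W =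
      Uᴴ * (((u * α : ℝ) : ℂ) • E1 + ((v * β : ℝ) : ℂ) • E2 γ) * U := by
    intro u v
    rw [← hYD, ← hFU, ← Ft_A α β γ hα.le hβ.le hγ0 hγ1.le u v, Matrix.conjTranspose_mul]
    noncomm_ring
  refine ⟨U, V, α, β, γ, η 0, η 1, mul_eq_one_comm.1 hUU, hα, hβ, hγ0, hγ1, ?_, ?_, hVA, ?_⟩
  · have := key 1 1
    simp only [one_mul, Complex.ofReal_one] at this
    rw [← this, hAW]
    have e : Matrix.diagonal ![(1 : ℂ), 1] = 1 := by
      rw [← Matrix.diagonal_one]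
      congr 1
      ext i
      fin_cases i <;> simp
    rw [e, Matrix.mul_one]
  · rw [← key, hDW]
  · rw [hη, vec2]

omit [Fintype ι] [DecidableEq ι] in
lemma psdPair_of_posDef {A D : Matrix ι ι ℂ} (h₁ : (A + D).PosDef) (h₂ : (A - D).PosDef) :
    IsPsdPair A D := by
  refine ⟨?_, h₂.posSemidef, h₁.posSemidef⟩
  have e : A = (2⁻¹ : ℝ) • ((A + D) + (A - D)) := by
    ext i j
    simp
    ring
  rw [e]
  exact (h₁.posSemidef.add h₂.posSemidef).smul (by norm_num)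

omit [Fintype ι] [DecidableEq ι] in
lemma posDef_of_pair {A D : Matrix ι ι ℂ} (h₁ : (A + D).PosDef) (h₂ : (A - D).PosDef) :
    A.PosDef := by
  have e : A = (2⁻¹ : ℝ) • ((A + D) + (A - D)) := by
    ext i j
    simp
    ring
  rw [e]
  exact (h₁.add h₂).smul (by norm_num)

omit [Fintype ι] [DecidableEq ι] in
lemma herm_of_pair {A D : Matrix ι ι ℂ} (h₁ : (A + D).PosDef) (h₂ : (A - D).PosDef) :
    D.IsHermitian := by
  have e : D = (A + D) - A := by abel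
  rw [e]
  exact h₁.1.sub (posDef_of_pair h₁ h₂).1

/-- block CORE: `COREStmt` (at `p`) from `PAIRStmt` (at `p`) -/
theorem core_of_pair (p : ℝ)
    (hP : ∀ α β γ v₁ v₂ : ℝ, 0 ≤ α → 0 ≤ β → 0 ≤ γ → γ ≤ 1 → |v₁| ≤ 1 → |v₂| ≤ 1 →
      ∀ (κ : Type) [Fintype κ] [DecidableEq κ] (A D : Matrix κ κ ℂ), IsPsdPair A D →
      G p ((α : ℂ) • E1 + (β : ℂ) • E2 γ)
        (((v₁ * α : ℝ) : ℂ) • E1 + ((v₂ * β : ℝ) : ℂ) • E2 γ) * G p A D ≤
      (2 ^ (p - 1) - 1) * G p (((α : ℂ) • E1 + (β : ℂ) • E2 γ) ⊗ₖ A)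
        ((((v₁ * α : ℝ) : ℂ) • E1 + ((v₂ * β : ℝ) : ℂ) • E2 γ) ⊗ₖ D)) :
    ∀ (ι : Type) [Fintype ι] [DecidableEq ι] (A D : Matrix ι ι ℂ),
    (A + D).PosDef → (A - D).PosDef → ∀ (A₂ D₂ : Matrix (Fin 2) (Fin 2) ℂ),
    (A₂ + D₂).PosDef → (A₂ - D₂).PosDef →
    G p A D * G p A₂ D₂ ≤ (2 ^ (p - 1) - 1) * G p (A ⊗ₖ A₂) (D ⊗ₖ D₂) := by
  intro ι _ _ A D h₁ h₂ A₂ D₂ k₁ k₂
  have hA₂ := posDef_of_pair k₁ k₂
  have hD₂ := herm_of_pair k₁ k₂
  obtain ⟨U, V, α, β, γ, v₁, v₂, hU, hα, hβ, hγ0, hγ1, eA, eD, hVA, hVD⟩ :=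
    exists_normal hA₂ hD₂
  have hVV : IsUnit V.det := by
    have := congrArg Matrix.det hVA
    rw [Matrix.det_mul, Matrix.det_one] at this
    refine isUnit_iff_ne_zero.2 fun h => ?_
    rw [h, mul_zero] at this
    exact zero_ne_one this
  have hVi : Function.Injective V.mulVec :=
    Matrix.mulVec_injective_iff_isUnit.2 ((Matrix.isUnit_iff_isUnit_det V).2 hVV)
  have hp : (Vᴴ * (A₂ + D₂) * V).PosDef := k₁.conjTranspose_mul_mul_same hVi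
  have hm : (Vᴴ * (A₂ - D₂) * V).PosDef := k₂.conjTranspose_mul_mul_same hVi
  have ep : Vᴴ * (A₂ + D₂) * V = 1 + Matrix.diagonal ![(v₁ : ℂ), (v₂ : ℂ)] := by
    rw [← hVA, ← hVD]; noncomm_ring
  have em : Vᴴ * (A₂ - D₂) * V = 1 - Matrix.diagonal ![(v₁ : ℂ), (v₂ : ℂ)] := by
    rw [← hVA, ← hVD]; noncomm_ring
  rw [ep] at hp
  rw [em] at hm
  have p0 := hp.diag_pos (i := 0)
  have p1 := hp.diag_pos (i := 1)
  have m0 := hm.diag_pos (i := 0)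
  have m1 := hm.diag_pos (i := 1)
  simp only [Matrix.add_apply, Matrix.sub_apply, Matrix.one_apply_eq, Matrix.diagonal_apply_eq,
    Matrix.cons_val_zero, Matrix.cons_val_one] at p0 p1 m0 m1
  have q0 : 0 < 1 + v₁ := by exact_mod_cast p0
  have q1 : 0 < 1 + v₂ := by exact_mod_cast p1
  have r0 : 0 < 1 - v₁ := by exact_mod_cast m0
  have r1 : 0 < 1 - v₂ := by exact_mod_cast m1
  have hv₁ : |v₁| ≤ 1 := abs_le.2 ⟨by linarith, by linarith⟩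
  have hv₂ : |v₂| ≤ 1 := abs_le.2 ⟨by linarith, by linarith⟩
  have main := hP α β γ v₁ v₂ hα.le hβ.le hγ0 hγ1.le hv₁ hv₂ ι A D (psdPair_of_posDef h₁ h₂)
  set A₁ : Matrix (Fin 2) (Fin 2) ℂ := (α : ℂ) • E1 + (β : ℂ) • E2 γ with hA₁
  set D₁ : Matrix (Fin 2) (Fin 2) ℂ := ((v₁ * α : ℝ) : ℂ) • E1 + ((v₂ * β : ℝ) : ℂ) • E2 γ
    with hD₁
  have hUU' : U * Uᴴ = 1 := mul_eq_one_comm.1 hU
  have bA : A₁ = U * A₂ * Uᴴ := by
    rw [eA]
    calc A₁ = (U * Uᴴ) * A₁ * (U * Uᴴ) := by rw [hUU']; simp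
      _ = _ := by noncomm_ring
  have bD : D₁ = U * D₂ * Uᴴ := by
    rw [eD]
    calc D₁ = (U * Uᴴ) * D₁ * (U * Uᴴ) := by rw [hUU']; simp
      _ = _ := by noncomm_ring
  have hA₁h : A₁.IsHermitian := by
    rw [bA]; exact Matrix.isHermitian_mul_mul_conjTranspose U hA₂.1
  have hD₁h : D₁.IsHermitian := by
    rw [bD]; exact Matrix.isHermitian_mul_mul_conjTranspose U hD₂
  have hAh := (posDef_of_pair h₁ h₂).1
  have hDh := herm_of_pair h₁ h₂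
  have hk : ∀ {X : Matrix ι ι ℂ} {Y : Matrix (Fin 2) (Fin 2) ℂ}, X.IsHermitian →
      Y.IsHermitian → (X ⊗ₖ Y).IsHermitian := by
    intro X Y hX hY
    unfold Matrix.IsHermitian
    rw [Matrix.conjTranspose_kronecker, hX.eq, hY.eq]
  have g1 : G p A₂ D₂ = G p A₁ D₁ := by
    rw [eA, eD]; exact G_unit_conj p hU hA₁h hD₁h
  have g2 : G p (A ⊗ₖ A₂) (D ⊗ₖ D₂) = G p (A₁ ⊗ₖ A) (D₁ ⊗ₖ D) := by
    rw [G_swap' p A D A₁ D₁]
    have hW : ((1 : Matrix ι ι ℂ) ⊗ₖ U)ᴴ * ((1 : Matrix ι ι ℂ) ⊗ₖ U) = 1 := by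
      rw [Matrix.conjTranspose_kronecker, ← Matrix.mul_kronecker_mul, hU,
        Matrix.conjTranspose_one, Matrix.one_mul, Matrix.one_kronecker_one]
    have e : ∀ (X : Matrix ι ι ℂ) (Y : Matrix (Fin 2) (Fin 2) ℂ),
        X ⊗ₖ (Uᴴ * Y * U) = ((1 : Matrix ι ι ℂ) ⊗ₖ U)ᴴ * (X ⊗ₖ Y) * ((1 : Matrix ι ι ℂ) ⊗ₖ U) := by
      intro X Y
      rw [Matrix.conjTranspose_kronecker, ← Matrix.mul_kronecker_mul, ← Matrix.mul_kronecker_mul,
        Matrix.conjTranspose_one, Matrix.one_mul, Matrix.mul_one]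
    rw [eA, eD, e, e]
    exact G_unit_conj p hW (hk hAh hA₁h) (hk hDh hD₁h)
  rw [g1, g2, mul_comm]
  exact main

end Pool.Agent.QB
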