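import Pool.Agent.Lib_helper69.QB.Defs

/-!
# MP_859019, QS, block SIM: `Maf` and `Mt` are similar
-/

set_option autoImplicit false

open scoped BigOperators ComplexOrder Kronecker MatrixOrder Topology Real
open MeasureTheory Set Matrix Filter

namespace Pool.Agent.QB

open Pool.Agent.RC Pool.Agent.LDK

variable {κ : Type} [Fintype κ] [DecidableEq κ]

/-- `[[u 0, u 1], [v 0, v 1]] ⊗ 1` -/
def simP (κ : Type) [DecidableEq κ] (u v : Fin 2 → ℂ) : Matrix (κ ⊕ κ) (Fin 2 × κ) ℂ :=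
  Matrix.of fun i j => Sum.elim (fun k => if k = j.2 then u j.1 else 0)
    (fun k => if k = j.2 then v j.1 else 0) i

/-- `[[u 0, v 0], [u 1, v 1]] ⊗ 1` -/
def simQ (κ : Type) [DecidableEq κ] (u v : Fin 2 → ℂ) : Matrix (Fin 2 × κ) (κ ⊕ κ) ℂ :=
  Matrix.of fun j i => Sum.elim (fun k => if k = j.2 then u j.1 else 0)
    (fun k => if k = j.2 then v j.1 else 0) i

lemma sim_PQ (u v u' v' : Fin 2 → ℂ) (h00 : u 0 * u' 0 + u 1 * u' 1 = 1)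
    (h01 : u 0 * v' 0 + u 1 * v' 1 = 0) (h10 : v 0 * u' 0 + v 1 * u' 1 = 0)
    (h11 : v 0 * v' 0 + v 1 * v' 1 = 1) :
    simP κ u v * simQ κ u' v' = 1 := by
  ext i j
  rcases i with i | i <;> rcases j with j | j <;>
    simp [simP, simQ, Matrix.mul_apply, Fintype.sum_prod_type, Fin.sum_univ_two, Matrix.one_apply] <;>
    by_cases h : i = j <;> simp [h, h00, h01, h10, h11]

lemma sim_QP (u v u' v' : Fin 2 → ℂ) (h00 : u' 0 * u 0 + v' 0 * v 0 = 1)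
    (h01 : u' 0 * u 1 + v' 0 * v 1 = 0) (h10 : u' 1 * u 0 + v' 1 * v 0 = 0)
    (h11 : u' 1 * u 1 + v' 1 * v 1 = 1) :
    simQ κ u' v' * simP κ u v = 1 := by
  ext ⟨a, i⟩ ⟨b, j⟩
  simp only [simP, simQ, Matrix.mul_apply, Fintype.sum_sum_type, Matrix.of_apply, Sum.elim_inl,
    Sum.elim_inr, Matrix.one_apply, Prod.mk.injEq]
  by_cases h : i = j
  · subst h
    fin_cases a <;> fin_cases b <;> simp [h00, h01, h10, h11]
  · have h' : ¬ j = i := fun e => h e.symm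
    fin_cases a <;> fin_cases b <;> simp [h, h']

lemma sim_comm (α β γ : ℝ) (h0 : 0 < γ) (h1 : γ < 1) (S T : Matrix κ κ ℂ) :
    simP κ ![(α : ℂ), 0] ![1, ((√(1 - γ) / √γ : ℝ) : ℂ)] * Mt α β γ S T =
      Maf α β (γ * (α * β)) S T * simP κ ![(α : ℂ), 0] ![1, ((√(1 - γ) / √γ : ℝ) : ℂ)] := by
  have hg : (√γ : ℝ) ≠ 0 := (Real.sqrt_pos.2 h0).ne'
  have e1 : √γ * √γ = γ := Real.mul_self_sqrt h0.le
  have e2 : √(1 - γ) * √(1 - γ) = 1 - γ := Real.mul_self_sqrt (by linarith)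
  have f1 : √(1 - γ) / √γ * (√γ * √(1 - γ)) = 1 - γ := by
    have : √(1 - γ) / √γ * (√γ * √(1 - γ)) = √(1 - γ) * √(1 - γ) := by field_simp
    rw [this, e2]
  have f2 : √γ * √(1 - γ) + √(1 - γ) / √γ * (1 - γ) = √(1 - γ) / √γ := by
    field_simp
    have : √γ ^ 2 = γ := by rw [pow_two]; exact e1
    rw [this]; ring
  have f3 : γ * (√(1 - γ) / √γ) = √γ * √(1 - γ) := by
    nth_rewrite 1 [← e1]; field_simp
  have g1 : ((√(1 - γ) / √γ : ℝ) : ℂ) * ((√γ * √(1 - γ) : ℝ) : ℂ) = 1 - (γ : ℂ) := by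
    rw [← Complex.ofReal_mul, f1]; push_cast; ring
  have g2 : ((√γ * √(1 - γ) : ℝ) : ℂ) + ((√(1 - γ) / √γ : ℝ) : ℂ) * (1 - (γ : ℂ)) =
      ((√(1 - γ) / √γ : ℝ) : ℂ) := by
    have := congrArg (fun x : ℝ => (x : ℂ)) f2
    push_cast at this ⊢
    exact this
  have g3 : (γ : ℂ) * ((√(1 - γ) / √γ : ℝ) : ℂ) = ((√γ * √(1 - γ) : ℝ) : ℂ) := by
    rw [← Complex.ofReal_mul, f3]
  rw [Complex.ofReal_mul] at g1 g2 g3
  generalize ((√(1 - γ) / √γ : ℝ) : ℂ) = s at g1 g2 g3 ⊢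
  ext i ⟨b, j⟩
  rcases i with i | i
  · fin_cases b
    · simp [simP, Mt, Maf, E1, E2, Matrix.mul_apply, Fintype.sum_prod_type, Fin.sum_univ_two,
        Matrix.fromBlocks, Matrix.kroneckerMap_apply, Fintype.sum_sum_type]
      ring
    · simp [simP, Mt, Maf, E1, E2, Matrix.mul_apply, Fintype.sum_prod_type, Fin.sum_univ_two,
        Matrix.fromBlocks, Matrix.kroneckerMap_apply, Fintype.sum_sum_type]
      linear_combination (-(α * β * T i j : ℂ)) * g3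
  · fin_cases b
    · simp [simP, Mt, Maf, E1, E2, Matrix.mul_apply, Fintype.sum_prod_type, Fin.sum_univ_two,
        Matrix.fromBlocks, Matrix.kroneckerMap_apply, Fintype.sum_sum_type]
      linear_combination (β * T i j : ℂ) * g1
    · simp [simP, Mt, Maf, E1, E2, Matrix.mul_apply, Fintype.sum_prod_type, Fin.sum_univ_two,
        Matrix.fromBlocks, Matrix.kroneckerMap_apply, Fintype.sum_sum_type]
      linear_combination (β * T i j : ℂ) * g2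

theorem sim (κ : Type) [Fintype κ] [DecidableEq κ] (S T : Matrix κ κ ℂ) (α β γ : ℝ) (hα : 0 < α)
    (h0 : 0 < γ) (h1 : γ < 1) (z : ℂ) :
    (z • (1 : Matrix (κ ⊕ κ) (κ ⊕ κ) ℂ) - Maf α β (γ * (α * β)) S T).det =
      (z • (1 : Matrix (Fin 2 × κ) (Fin 2 × κ) ℂ) - Mt α β γ S T).det ∧
    ((z • (1 : Matrix (κ ⊕ κ) (κ ⊕ κ) ℂ) - Maf α β (γ * (α * β)) S T).det ≠ 0 →
      ((z • (1 : Matrix (κ ⊕ κ) (κ ⊕ κ) ℂ) - Maf α β (γ * (α * β)) S T)⁻¹).trace =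
        ((z • (1 : Matrix (Fin 2 × κ) (Fin 2 × κ) ℂ) - Mt α β γ S T)⁻¹).trace) := by
  have hs : ((√(1 - γ) / √γ : ℝ) : ℂ) ≠ 0 := by
    rw [Complex.ofReal_ne_zero]
    exact (div_pos (Real.sqrt_pos.2 (by linarith)) (Real.sqrt_pos.2 h0)).ne'
  have ha : (α : ℂ) ≠ 0 := Complex.ofReal_ne_zero.2 hα.ne'
  have hc := sim_comm α β γ h0 h1 S T
  generalize ((√(1 - γ) / √γ : ℝ) : ℂ) = s at hs hc
  set P := simP κ ![(α : ℂ), 0] ![1, s] with hP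
  set Q := simQ κ ![(α : ℂ)⁻¹, -(α : ℂ)⁻¹ * s⁻¹] ![0, s⁻¹] with hQ
  have hPQ : P * Q = 1 := by
    refine sim_PQ _ _ _ _ ?_ ?_ ?_ ?_ <;> simp [ha, hs]
    field_simp; ring
  have hQP : Q * P = 1 := by
    refine sim_QP _ _ _ _ ?_ ?_ ?_ ?_ <;> simp [ha, hs]
    field_simp; ring
  set A := Maf α β (γ * (α * β)) S T
  set B := Mt α β γ S T
  have e : z • (1 : Matrix (κ ⊕ κ) (κ ⊕ κ) ℂ) - A = P * (z • (1 : Matrix (Fin 2 × κ) (Fin 2 × κ) ℂ) - B) * Q := by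
    rw [Matrix.mul_sub, hc, Matrix.sub_mul, Matrix.mul_assoc A, hPQ, Matrix.mul_one,
      Matrix.mul_smul, Matrix.mul_one, Matrix.smul_mul, hPQ]
  have hdet : (z • (1 : Matrix (κ ⊕ κ) (κ ⊕ κ) ℂ) - A).det =
      (z • (1 : Matrix (Fin 2 × κ) (Fin 2 × κ) ℂ) - B).det := by
    rw [e]; exact Matrix.det_conj_of_mul_eq_one hPQ hQP
  refine ⟨hdet, fun hne => ?_⟩
  have hu : IsUnit (z • (1 : Matrix (Fin 2 × κ) (Fin 2 × κ) ℂ) - B).det := by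
    rw [← hdet]; exact isUnit_iff_ne_zero.2 hne
  have hinv : (z • (1 : Matrix (κ ⊕ κ) (κ ⊕ κ) ℂ) - A)⁻¹ =
      P * (z • (1 : Matrix (Fin 2 × κ) (Fin 2 × κ) ℂ) - B)⁻¹ * Q := by
    refine Matrix.inv_eq_right_inv ?_
    rw [e]
    calc P * (z • (1 : Matrix (Fin 2 × κ) (Fin 2 × κ) ℂ) - B) * Q *
          (P * (z • (1 : Matrix (Fin 2 × κ) (Fin 2 × κ) ℂ) - B)⁻¹ * Q)
        = P * (z • (1 : Matrix (Fin 2 × κ) (Fin 2 × κ) ℂ) - B) * (Q * P) *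
          (z • (1 : Matrix (Fin 2 × κ) (Fin 2 × κ) ℂ) - B)⁻¹ * Q := by
          simp only [Matrix.mul_assoc]
      _ = P * ((z • (1 : Matrix (Fin 2 × κ) (Fin 2 × κ) ℂ) - B) *
          (z • (1 : Matrix (Fin 2 × κ) (Fin 2 × κ) ℂ) - B)⁻¹) * Q := by
          rw [hQP, Matrix.mul_one]; simp only [Matrix.mul_assoc]
      _ = 1 := by rw [Matrix.mul_nonsing_inv _ hu, Matrix.mul_one, hPQ]
  rw [hinv, Matrix.mul_assoc, Matrix.trace_mul_comm, Matrix.mul_assoc, hQP, Matrix.mul_one]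

/-- block SIM (the statement `SIMStmt`) -/
theorem sim_stmt (κ : Type) [Fintype κ] [DecidableEq κ] (S T : Matrix κ κ ℂ) (_ : S.PosDef)
    (_ : T.PosDef) (α β γ : ℝ) (hα : 0 < α) (_ : 0 < β) (h0 : 0 < γ) (h1 : γ < 1) (z : ℂ) :
    (z • (1 : Matrix (κ ⊕ κ) (κ ⊕ κ) ℂ) - Maf α β (γ * (α * β)) S T).det =
      (z • (1 : Matrix (Fin 2 × κ) (Fin 2 × κ) ℂ) - Mt α β γ S T).det ∧
    ((z • (1 : Matrix (κ ⊕ κ) (κ ⊕ κ) ℂ) - Maf α β (γ * (α * β)) S T).det ≠ 0 →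
      ((z • (1 : Matrix (κ ⊕ κ) (κ ⊕ κ) ℂ) - Maf α β (γ * (α * β)) S T)⁻¹).trace =
        ((z • (1 : Matrix (Fin 2 × κ) (Fin 2 × κ) ℂ) - Mt α β γ S T)⁻¹).trace) :=
  sim κ S T α β γ hα h0 h1 z

end Pool.Agent.QB
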